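import Pool.Agent.Y150.KN.Stm3

/-!
# Job KN-G5: the group law on the first cohomology
-/

set_option autoImplicit false

open CategoryTheory AlgebraicGeometry

namespace Pool.Agent.Y840.KN

universe u v w

open Pool.Agent.H914 VarClass Obj Pool.Agent.Y150.KN

theorem sum : S_sum.{u, v} := by
  intro k _ 𝒱 ops W X m hm P n f
  induction n with
  | zero => exact ⟨f 0, fun v _ => by simp⟩
  | succ n ih =>
    obtain ⟨F, hF⟩ := ih (fun i => f i.castSucc)
    refine ⟨Obj.lift F (f (Fin.last _)) ≫ m, fun v hv => ?_⟩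
    rw [W.map_comp, hm v hv, _root_.map_add, ← W.map_comp, ← W.map_comp, Obj.lift_fst,
      Obj.lift_snd, hF v hv]
    exact (Fin.sum_univ_castSucc fun i => W.map (f i) v).symm

section
variable {k : Type u} [Field k] {𝒱 : VarClass k} {ops : CycleOps 𝒱} (W : Coh.{u, v} ops)

/-- Elements of degree one on `X × X`. -/
lemma deg_one (X : 𝒱.Obj) (c : W.H (X.prod X)) (hc : c ∈ W.gr (X.prod X) 1) :
    ∃ a ∈ W.gr X 1, ∃ b ∈ W.gr X 1, c = W.map (fst X X) a + W.map (snd X X) b := by
  have key : ∃ a ∈ W.gr X 1, ∃ b ∈ W.gr X 1, ∃ d ∈ ⨆ (i : ℕ) (_ : i ≠ 1), W.gr (X.prod X) i,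
      c = W.map (fst X X) a + W.map (snd X X) b + d := by
    clear hc
    refine W.kunneth_induction (p := fun c => ∃ a ∈ W.gr X 1, ∃ b ∈ W.gr X 1,
      ∃ d ∈ ⨆ (i : ℕ) (_ : i ≠ 1), W.gr (X.prod X) i,
      c = W.map (fst X X) a + W.map (snd X X) b + d) ?_ ?_ c
    · rintro c c' ⟨a, ha, b, hb, d, hd, rfl⟩ ⟨a', ha', b', hb', d', hd', rfl⟩
      refine ⟨a + a', Submodule.add_mem _ ha ha', b + b', Submodule.add_mem _ hb hb', d + d',
        Submodule.add_mem _ hd hd', ?_⟩
      rw [_root_.map_add, _root_.map_add]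
      abel
    · intro i j a ha b hb
      by_cases hij : i + j = 1
      · rcases Nat.eq_zero_or_pos i with hi | hi
        · subst hi
          have hj : j = 1 := by omega
          subst hj
          rw [W.gr_zero, Submodule.mem_span_singleton] at ha
          obtain ⟨t, rfl⟩ := ha
          refine ⟨0, Submodule.zero_mem _, t • b, Submodule.smul_mem _ _ hb, 0,
            Submodule.zero_mem _, ?_⟩
          rw [map_smul, _root_.map_one, smul_mul_assoc, one_mul, _root_.map_zero, map_smul,
            zero_add, add_zero]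
        · have hi1 : i = 1 := by omega
          have hj : j = 0 := by omega
          subst hi1 hj
          rw [W.gr_zero, Submodule.mem_span_singleton] at hb
          obtain ⟨t, rfl⟩ := hb
          refine ⟨t • a, Submodule.smul_mem _ _ ha, 0, Submodule.zero_mem _, 0,
            Submodule.zero_mem _, ?_⟩
          rw [map_smul, _root_.map_one, mul_smul_comm, mul_one, _root_.map_zero, map_smul,
            add_zero, add_zero]
      · refine ⟨0, Submodule.zero_mem _, 0, Submodule.zero_mem _, _, ?_, by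
          rw [_root_.map_zero, _root_.map_zero, zero_add, zero_add]⟩
        exact Submodule.mem_iSup_of_mem (i + j) (Submodule.mem_iSup_of_mem hij
          (W.mul_mem (W.map_mem _ ha) (W.map_mem _ hb)))
  obtain ⟨a, ha, b, hb, d, hd, h⟩ := key
  refine ⟨a, ha, b, hb, ?_⟩
  have hd1 : d ∈ W.gr (X.prod X) 1 := by
    have : d = c - (W.map (fst X X) a + W.map (snd X X) b) := by rw [h]; abel
    rw [this]
    exact Submodule.sub_mem _ hc (Submodule.add_mem _ (W.map_mem _ ha) (W.map_mem _ hb))
  have hind := (W.isInternal (X.prod X)).submodule_iSupIndep 1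
  have h0 : d = 0 := by
    have := Submodule.disjoint_def.1 hind d hd1 hd
    exact this
  rw [h, h0, add_zero]

lemma const_zero (X : 𝒱.Obj) (c : W.H X) (hc : c ∈ W.gr X 1)
    (h : W.map (fst X X) c = W.map (snd X X) c) : c = 0 := by
  by_cases hu : ∃ u ∈ W.gr X (2 * X.dim), W.tr X u ≠ 0
  · obtain ⟨u, hu, hu0⟩ := hu
    have h1 : W.push (fst X X) (W.map (fst X X) c * W.map (snd X X) u) = W.tr X u • c :=
      W.push_fst c u
    have h2 : W.map (fst X X) c * W.map (snd X X) u =
        W.map (fst X X) 1 * W.map (snd X X) (c * u) := by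
      rw [h, _root_.map_one, one_mul, _root_.map_mul]
    rw [h2, W.push_fst, W.tr_eq_zero (W.mul_mem hc hu) (by omega), zero_smul] at h1
    exact (smul_eq_zero.1 h1.symm).resolve_left hu0
  · push Not at hu
    apply W.nondeg
    intro b
    refine W.gr_induction (p := fun b => W.tr X (c * b) = 0) ?_ ?_ b
    · intro i b hb
      by_cases hi : 1 + i = 2 * X.dim
      · exact hu _ (hi ▸ W.mul_mem hc hb)
      · exact W.tr_eq_zero (W.mul_mem hc hb) hi
    · intro b b' hb hb'
      rw [mul_add, _root_.map_add, hb, hb', add_zero]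

end

theorem av1 : S_av1.{u, v} := by
  intro k _ 𝒱 ops W X m o ho h1 h2 v hv
  obtain ⟨a, ha, b, hb, hab⟩ := deg_one W X (W.map m v) (W.map_mem m hv)
  have hz : ∀ c ∈ W.gr X 1, W.map o c = 0 := by
    intro c hc
    apply const_zero W X _ (W.map_mem o hc)
    rw [← W.map_comp, ← W.map_comp, ho]
  have e1 : v = a := by
    have := congrArg (W.map (Obj.lift (𝟙 X) o)) hab
    rw [← W.map_comp, h1, W.map_id, _root_.map_add, ← W.map_comp, ← W.map_comp, Obj.lift_fst,
      Obj.lift_snd, W.map_id, hz b hb, add_zero] at this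
    exact this
  have e2 : v = b := by
    have := congrArg (W.map (Obj.lift o (𝟙 X))) hab
    rw [← W.map_comp, h2, W.map_id, _root_.map_add, ← W.map_comp, ← W.map_comp, Obj.lift_fst,
      Obj.lift_snd, W.map_id, hz a ha, zero_add] at this
    exact this
  rw [hab, ← e1, ← e2]

open MonoidalCategory CartesianMonoidalCategory MonObj in
theorem grp : S_grp.{u} := by
  intro k _ 𝒱 X hG
  let G : Over (Spec (.of k)) := Over.mk X.V.str
  let m : X.V.prod X.V ⟶ X.V := SmVar.Hom.mk (μ[G]).left (Over.w μ[G])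
  let o : X.V ⟶ X.V := SmVar.Hom.mk (X.V.str ≫ (η[G]).left) (by
    rw [Category.assoc]
    have : (η[G]).left ≫ X.V.str = 𝟙 _ := Over.w η[G]
    rw [this]
    exact Category.comp_id _)
  refine ⟨m, o, ?_, ?_, ?_⟩
  · apply SmVar.hom_ext
    change Limits.pullback.fst X.V.str X.V.str ≫ X.V.str ≫ (η[G]).left =
      Limits.pullback.snd X.V.str X.V.str ≫ X.V.str ≫ (η[G]).left
    rw [Limits.pullback.condition_assoc]
  · apply SmVar.hom_ext
    have := congrArg CommaMorphism.left (MonObj.lift_comp_one_right (𝟙 G) (toUnit G))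
    exact this
  · apply SmVar.hom_ext
    have := congrArg CommaMorphism.left (MonObj.lift_comp_one_left (toUnit G) (𝟙 G))
    exact this

end Pool.Agent.Y840.KN
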